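import Pool.Agent.Helper50.BC.Goals

/-!
# Project BC, ASM: the assembly
-/

open scoped ContDiff
open Real Filter Topology

namespace Pool.Agent.Helper50.BC

/-- second derivative along a curve -/
lemma comp2 {X Y : Type} [NormedAddCommGroup X] [NormedSpace ℝ X] [NormedAddCommGroup Y]
    [NormedSpace ℝ Y] {G : X → Y} (hG : ContDiff ℝ ∞ G) {γ : ℝ → X} {t : ℝ}
    (hγ : ContDiffAt ℝ 2 γ t) :
    deriv (deriv (fun s => G (γ s))) t =
      fderiv ℝ (fderiv ℝ G) (γ t) (deriv γ t) (deriv γ t) +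
        fderiv ℝ G (γ t) (deriv (deriv γ) t) := by
  have hev : ∀ᶠ s in 𝓝 t, ContDiffAt ℝ 2 γ s := hγ.eventually (by simp)
  have hGd : Differentiable ℝ G := hG.differentiable (by simp)
  have hGd2 : Differentiable ℝ (fderiv ℝ G) :=
    (hG.fderiv_right (m := ∞) (by simp)).differentiable (by simp)
  have h1 : deriv (fun s => G (γ s)) =ᶠ[𝓝 t] fun s => fderiv ℝ G (γ s) (deriv γ s) := by
    filter_upwards [hev] with s hs
    have hd : HasDerivAt γ (deriv γ s) s := (hs.differentiableAt (by norm_num)).hasDerivAt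
    exact ((hGd (γ s)).hasFDerivAt.comp_hasDerivAt s hd).deriv
  rw [h1.deriv_eq]
  have hd : HasDerivAt γ (deriv γ t) t := (hγ.differentiableAt (by norm_num)).hasDerivAt
  have h2 : HasDerivAt (fun s => fderiv ℝ G (γ s)) (fderiv ℝ (fderiv ℝ G) (γ t) (deriv γ t)) t :=
    (hGd2 (γ t)).hasFDerivAt.comp_hasDerivAt t hd
  have h3 : DifferentiableAt ℝ (deriv γ) t := by
    have h4 : ContDiffAt ℝ 1 (fderiv ℝ γ) t := hγ.fderiv_right (by norm_num)
    have h5 : DifferentiableAt ℝ (fderiv ℝ γ) t := h4.differentiableAt (by norm_num)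
    have h6 : deriv γ = fun s => fderiv ℝ γ s 1 := by
      ext s; rw [fderiv_apply_one_eq_deriv]
    rw [h6]
    exact h5.clm_apply (differentiableAt_const _)
  exact (h2.clm_apply h3.hasDerivAt).deriv

/-- differentiability of the derivative of a twice differentiable curve -/
lemma dderiv {X : Type} [NormedAddCommGroup X] [NormedSpace ℝ X] {γ : ℝ → X} {t : ℝ}
    (hγ : ContDiffAt ℝ 2 γ t) : HasDerivAt (deriv γ) (deriv (deriv γ) t) t := by
  have h4 : ContDiffAt ℝ 1 (fderiv ℝ γ) t := hγ.fderiv_right (by norm_num)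
  have h5 : DifferentiableAt ℝ (fderiv ℝ γ) t := h4.differentiableAt (by norm_num)
  have h6 : deriv γ = fun s => fderiv ℝ γ s 1 := by
    ext s; rw [fderiv_apply_one_eq_deriv]
  have h7 : DifferentiableAt ℝ (deriv γ) t := by
    rw [h6]
    exact h5.clm_apply (differentiableAt_const _)
  exact h7.hasDerivAt

/-- second derivative of the square norm of a curve -/
lemma sq2 {Y : Type} [NormedAddCommGroup Y] [InnerProductSpace ℝ Y] {z : ℝ → Y} {t : ℝ}
    (hz : ContDiffAt ℝ 2 z t) :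
    deriv (deriv (fun s => ‖z s‖ ^ 2)) t =
      2 * ‖deriv z t‖ ^ 2 + 2 * inner ℝ (z t) (deriv (deriv z) t) := by
  have hev : ∀ᶠ s in 𝓝 t, ContDiffAt ℝ 2 z s := hz.eventually (by simp)
  have h1 : deriv (fun s => ‖z s‖ ^ 2) =ᶠ[𝓝 t] fun s => 2 * inner ℝ (z s) (deriv z s) := by
    filter_upwards [hev] with s hs
    have hd : HasDerivAt z (deriv z s) s := (hs.differentiableAt (by norm_num)).hasDerivAt
    exact hd.norm_sq.deriv
  rw [h1.deriv_eq]
  have hd : HasDerivAt z (deriv z t) t := (hz.differentiableAt (by norm_num)).hasDerivAt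
  have h2 := ((hd.inner ℝ (dderiv hz)).const_mul (2 : ℝ)).deriv
  rw [h2, real_inner_self_eq_norm_sq]
  ring

variable {q j : ℕ}

/-- the diffeomorphism -/
noncomputable def th (l : ℝ) (g : E q → ℝ) (p : E q × E j) : E q × E j :=
  (l • p.1, g p.1 • p.2)

/-- its differential -/
noncomputable def dth (l : ℝ) (g : E q → ℝ) (p : E q × E j) :
    (E q × E j) →L[ℝ] (E q × E j) :=
  (l • ContinuousLinearMap.fst ℝ (E q) (E j)).prod
    (g p.1 • ContinuousLinearMap.snd ℝ (E q) (E j) +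
      ((fderiv ℝ g p.1).comp (ContinuousLinearMap.fst ℝ (E q) (E j))).smulRight p.2)

lemma dth_fst (l : ℝ) (g : E q → ℝ) (p ξ : E q × E j) : (dth l g p ξ).1 = l • ξ.1 := rfl

lemma dth_snd (l : ℝ) (g : E q → ℝ) (p ξ : E q × E j) :
    (dth l g p ξ).2 = g p.1 • ξ.2 + (fderiv ℝ g p.1 ξ.1) • p.2 := rfl

lemma th_hasFDerivAt (l : ℝ) {g : E q → ℝ} (hg : ContDiff ℝ ∞ g) (p : E q × E j) :
    HasFDerivAt (th l g) (dth l g p) p := by
  have h1 : HasFDerivAt (fun p : E q × E j => l • p.1)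
      (l • ContinuousLinearMap.fst ℝ (E q) (E j)) p := hasFDerivAt_fst.const_smul l
  have hgd : HasFDerivAt g (fderiv ℝ g p.1) p.1 := (hg.differentiable (by simp) p.1).hasFDerivAt
  have h2 : HasFDerivAt (fun p : E q × E j => g p.1)
      ((fderiv ℝ g p.1).comp (ContinuousLinearMap.fst ℝ (E q) (E j))) p :=
    HasFDerivAt.comp p hgd hasFDerivAt_fst
  exact h1.prodMk (h2.smul hasFDerivAt_snd)

lemma th_contDiff (l : ℝ) {g : E q → ℝ} (hg : ContDiff ℝ ∞ g) :
    ContDiff ℝ ∞ (th l g : E q × E j → E q × E j) := by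
  unfold th
  have h1 : ContDiff ℝ ∞ (fun p : E q × E j => l • p.1) := contDiff_fst.const_smul l
  have h2 : ContDiff ℝ ∞ (fun p : E q × E j => g p.1) := hg.comp contDiff_fst
  exact h1.prodMk (h2.smul contDiff_snd)

lemma two_le_infty : (2 : WithTop ℕ∞) ≤ ∞ := by
  have h : ((2 : ℕ∞) : WithTop ℕ∞) ≤ ((⊤ : ℕ∞) : WithTop ℕ∞) := WithTop.coe_le_coe.2 le_top
  exact h

lemma inner_aux {Y : Type} [NormedAddCommGroup Y] [InnerProductSpace ℝ Y] (a b : ℝ) (v x : Y) :
    inner ℝ (a • v) (a • x + b • v) = a ^ 2 * inner ℝ v x + a * b * ‖v‖ ^ 2 := by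
  rw [inner_add_right, real_inner_smul_left, real_inner_smul_left, real_inner_smul_right,
    real_inner_smul_right, real_inner_self_eq_norm_sq]
  ring

/-- the differential of f -/
lemma f_fderiv {Ψ : E q × E j → E (q + j)} (hΨ : ContDiff ℝ ∞ Ψ) (l : ℝ) {g : E q → ℝ}
    (hg : ContDiff ℝ ∞ g) (p ξ : E q × E j) :
    fderiv ℝ (fun p => (100 / 113 : ℝ) • Ψ (th l g p)) p ξ =
      (100 / 113 : ℝ) • fderiv ℝ Ψ (th l g p) (dth l g p ξ) := by
  have h1 : HasFDerivAt Ψ (fderiv ℝ Ψ (th l g p)) (th l g p) :=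
    (hΨ.differentiable (by simp) _).hasFDerivAt
  have h2 := ((h1.comp p (th_hasFDerivAt l hg p)).const_smul (100 / 113 : ℝ)).fderiv
  have h3 : (fun p : E q × E j => (100 / 113 : ℝ) • Ψ (th l g p)) =
      (100 / 113 : ℝ) • (Ψ ∘ th l g) := rfl
  rw [h3, h2]
  rfl

theorem goalASM : G_ASM := by
  intro q j h Ψ l g Φ hh hE hC
  obtain ⟨hΨ, hE⟩ := hE
  obtain ⟨hl, hg, hgp, hΦ, hΦg, hC⟩ := hC
  have key : ∀ p ∈ XX j h, 0 ≤ Φ (l • p.1) ∧ ‖(th l g p).2‖ ^ 2 = Φ (l • p.1) ∧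
      ‖(th l g p).2‖ ≤ 1 / 10 := by
    intro p hp
    have hp' : ‖p.2‖ ^ 2 = h p.1 := hp
    have h1 : ‖(th l g p).2‖ ^ 2 = Φ (l • p.1) := by
      have : (th l g p).2 = g p.1 • p.2 := rfl
      rw [this, norm_smul, mul_pow, hp', hΦg, Real.norm_eq_abs, sq_abs]
    have h2 : 0 ≤ Φ (l • p.1) := by rw [← h1]; positivity
    refine ⟨h2, h1, ?_⟩
    have h3 := (hC _ h2).1
    have h4 : ‖(th l g p).2‖ ^ 2 ≤ (1 / 10) ^ 2 := by rw [h1]; linarith
    exact le_of_sq_le_sq h4 (by norm_num)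
  refine ⟨fun p => (100 / 113 : ℝ) • Ψ (th l g p), ?_, ?_, ?_, ?_⟩
  · exact (hΨ.comp (th_contDiff l hg)).const_smul _
  · intro p hp
    have h1 := (hE (th l g p) (key p hp).2.2).1
    rw [norm_smul, Real.norm_eq_abs, abs_of_pos (by norm_num : (0 : ℝ) < 100 / 113)]
    linarith
  · intro p hp ξ _ hξ
    rw [f_fderiv hΨ l hg] at hξ
    have h1 : fderiv ℝ Ψ (th l g p) (dth l g p ξ) = 0 := by
      rcases smul_eq_zero.1 hξ with h | h
      · norm_num at h
      · exact h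
    have h2 := (hE (th l g p) (key p hp).2.2).2.1 (dth l g p ξ)
    rw [h1, norm_zero] at h2
    have h3 : ‖(dth l g p ξ).1‖ ^ 2 = 0 := by
      nlinarith [sq_nonneg ‖(dth l g p ξ).1‖, sq_nonneg ‖(dth l g p ξ).2‖]
    have h4 : ‖(dth l g p ξ).2‖ ^ 2 = 0 := by
      nlinarith [sq_nonneg ‖(dth l g p ξ).1‖, sq_nonneg ‖(dth l g p ξ).2‖]
    have h5 : (dth l g p ξ).1 = 0 := by
      rw [← norm_eq_zero]; exact pow_eq_zero_iff (two_ne_zero) |>.1 h3
    have h6 : (dth l g p ξ).2 = 0 := by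
      rw [← norm_eq_zero]; exact pow_eq_zero_iff (two_ne_zero) |>.1 h4
    rw [dth_fst] at h5
    have h7 : ξ.1 = 0 := by
      rcases smul_eq_zero.1 h5 with h | h
      · exact absurd h hl.ne'
      · exact h
    rw [dth_snd, h7, map_zero, zero_smul, add_zero] at h6
    have h8 : ξ.2 = 0 := by
      rcases smul_eq_zero.1 h6 with h | h
      · exact absurd h (hgp _).ne'
      · exact h
    exact Prod.ext h7 h8
  · intro c t hc hcX h1 horth
    -- the curve γ
    have hcXt : c t ∈ XX j h := hcX.self_of_nhds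
    obtain ⟨hΦ0, hzΦ, hz⟩ := key (c t) hcXt
    have hγ : ContDiffAt ℝ 2 (fun s => th l g (c s)) t :=
      ((th_contDiff l hg).of_le two_le_infty).contDiffAt.comp t hc
    set γ : ℝ → E q × E j := fun s => th l g (c s) with hγdef
    set y : ℝ → E q := fun s => (γ s).1 with hy
    set z : ℝ → E j := fun s => (γ s).2 with hzz
    have hyC : ContDiffAt ℝ 2 y t := contDiff_fst.contDiffAt.comp t hγ
    have hzC : ContDiffAt ℝ 2 z t := contDiff_snd.contDiffAt.comp t hγ
    have hγ1 : ∀ᶠ s in 𝓝 t, deriv γ s = (deriv y s, deriv z s) := by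
      filter_upwards [hyC.eventually (by simp), hzC.eventually (by simp)] with s hs1 hs2
      have a1 := (hs1.differentiableAt (by norm_num)).hasDerivAt
      have a2 := (hs2.differentiableAt (by norm_num)).hasDerivAt
      exact (a1.prodMk a2).deriv
    have hγ2 : deriv (deriv γ) t = (deriv (deriv y) t, deriv (deriv z) t) := by
      rw [EventuallyEq.deriv_eq hγ1]
      exact ((dderiv hyC).prodMk (dderiv hzC)).deriv
    have hγ1t := hγ1.self_of_nhds
    set y1 := deriv y t with hy1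
    set z1 := deriv z t with hz1
    set y2 := deriv (deriv y) t with hy2
    set z2 := deriv (deriv z) t with hz2
    -- the constraint
    have hcon : (fun s => ‖z s‖ ^ 2) =ᶠ[𝓝 t] fun s => Φ (y s) := by
      filter_upwards [hcX] with s hs
      exact (key (c s) hs).2.1
    have hcon1 : deriv (fun s => ‖z s‖ ^ 2) =ᶠ[𝓝 t] deriv (fun s => Φ (y s)) := hcon.deriv
    have hcon2 : deriv (deriv (fun s => ‖z s‖ ^ 2)) t = deriv (deriv (fun s => Φ (y s))) t :=
      hcon1.deriv_eq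
    rw [sq2 hzC, comp2 hΦ hyC] at hcon2
    -- the normal vector
    set A : E q →L[ℝ] ℝ := fderiv ℝ Φ (y t) with hA
    set n : E q := (InnerProductSpace.toDual ℝ (E q)).symm A with hn
    have hnA : ∀ v, inner ℝ n v = A v := fun v => InnerProductSpace.toDual_symm_apply
    have hnn : ‖n‖ = ‖A‖ := LinearIsometryEquiv.norm_map _ _
    have hAn : A n = ‖A‖ ^ 2 := by rw [← hnA, real_inner_self_eq_norm_sq, hnn]
    obtain ⟨_, hν0, hcurv⟩ := hC (y t) hΦ0
    have hzt : ‖z t‖ ^ 2 = Φ (y t) := hzΦ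
    set ν2 : ℝ := ‖A‖ ^ 2 + 4 * Φ (y t) with hν2
    set D : ℝ := fderiv ℝ (fderiv ℝ Φ) (y t) y1 y1 with hD
    have hcon3 : 2 * inner ℝ (z t) z2 - A y2 = -(2 * ‖z1‖ ^ 2 - D) := by
      linarith [hcon2]
    set μ : ℝ := (2 * inner ℝ (z t) z2 - A y2) / ν2 with hμ
    have hμν : μ * ν2 = 2 * inner ℝ (z t) z2 - A y2 := by
      rw [hμ]; field_simp
    set S : ℝ := ‖y1‖ ^ 2 + ‖z1‖ ^ 2 with hS
    have hS0 : 0 ≤ S := by positivity
    have hμb : |μ| * √ν2 ≤ 23 * S := by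
      have a1 := hcurv y1 (‖z1‖ ^ 2) (by positivity)
      have a2 : |μ| * ν2 ≤ 23 * √ν2 * S := by
        have : |μ| * ν2 = |μ * ν2| := by rw [abs_mul, abs_of_pos hν0]
        rw [this, hμν, hcon3, abs_neg]
        exact a1
      have a3 : 0 < √ν2 := Real.sqrt_pos.2 hν0
      have a4 : √ν2 * √ν2 = ν2 := Real.mul_self_sqrt hν0.le
      have a5 : √ν2 * (|μ| * √ν2) ≤ √ν2 * (23 * S) := by
        calc √ν2 * (|μ| * √ν2) = |μ| * (√ν2 * √ν2) := by ring
          _ = |μ| * ν2 := by rw [a4]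
          _ ≤ 23 * √ν2 * S := a2
          _ = √ν2 * (23 * S) := by ring
      exact le_of_mul_le_mul_left a5 a3
    -- the tangential part
    set τ : E q × E j := (y2 + μ • n, z2 - (2 * μ) • z t) with hτ
    have hτ0 : 2 * inner ℝ (z t) τ.2 = A τ.1 := by
      have a1 : A τ.1 = A y2 + μ * ‖A‖ ^ 2 := by
        rw [hτ]; simp only [map_add, map_smul, smul_eq_mul, hAn]
      have a2 : inner ℝ (z t) τ.2 = inner ℝ (z t) z2 - 2 * μ * ‖z t‖ ^ 2 := by
        rw [hτ]; simp only [inner_sub_right, inner_smul_right, real_inner_self_eq_norm_sq]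
      rw [a1, a2, hzt]
      have := hμν
      rw [hν2] at this
      linarith
    set w : E q := (c t).1 with hw
    set v : E j := (c t).2 with hv
    have hyt : y t = l • w := rfl
    have hztv : z t = g w • v := rfl
    set ξ : E q × E j := (l⁻¹ • τ.1, (g w)⁻¹ • (τ.2 - (fderiv ℝ g w (l⁻¹ • τ.1)) • v)) with hξ
    have hgw : g w ≠ 0 := (hgp w).ne'
    have hdξ : dth l g (c t) ξ = τ := by
      refine Prod.ext ?_ ?_
      · rw [dth_fst]
        show l • (l⁻¹ • τ.1) = τ.1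
        rw [smul_inv_smul₀ hl.ne']
      · rw [dth_snd]
        show g w • ((g w)⁻¹ • (τ.2 - (fderiv ℝ g w (l⁻¹ • τ.1)) • v)) +
          (fderiv ℝ g w (l⁻¹ • τ.1)) • v = τ.2
        rw [smul_inv_smul₀ hgw]
        abel
    have hξ1 : l • ξ.1 = τ.1 := by
      show l • (l⁻¹ • τ.1) = τ.1
      rw [smul_inv_smul₀ hl.ne']
    have hξ2 : τ.2 = g w • ξ.2 + (fderiv ℝ g w ξ.1) • v := by
      rw [← hdξ, dth_snd]
    have hTT : TT h (c t) ξ := by
      show 2 * inner ℝ v ξ.2 = fderiv ℝ h w ξ.1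
      -- differentiate Φ (l w) = g² h
      have d1 : HasFDerivAt (fun w => Φ (l • w)) (A.comp (l • ContinuousLinearMap.id ℝ (E q))) w := by
        have e1 : HasFDerivAt Φ A (l • w) := (hΦ.differentiable (by simp) _).hasFDerivAt
        have e2 : HasFDerivAt (fun w : E q => l • w) (l • ContinuousLinearMap.id ℝ (E q)) w :=
          (hasFDerivAt_id w).const_smul l
        exact e1.comp w e2
      have d2 : HasFDerivAt g (fderiv ℝ g w) w := (hg.differentiable (by simp) _).hasFDerivAt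
      have d3 : HasFDerivAt h (fderiv ℝ h w) w := (hh.differentiable (by simp) _).hasFDerivAt
      have d4 := (d2.pow 2).mul d3
      have d5 : (fun w => Φ (l • w)) = fun w => g w ^ 2 * h w := funext hΦg
      rw [d5] at d1
      have d6 := d1.unique d4
      have d7 := congrArg (fun T : E q →L[ℝ] ℝ => T ξ.1) d6
      simp only [ContinuousLinearMap.comp_apply, _root_.smul_apply,
        _root_.add_apply, ContinuousLinearMap.id_apply, smul_eq_mul] at d7
      have d8 : A (l • ξ.1) = A τ.1 := by rw [hξ1]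
      have hvh : ‖v‖ ^ 2 = h w := hcXt
      rw [d8, ← hτ0, hξ2, hztv, inner_aux, hvh] at d7
      have hg2 : (g w) ^ 2 ≠ 0 := pow_ne_zero 2 hgw
      have d9 : (g w) ^ 2 * (2 * inner ℝ v ξ.2) = (g w) ^ 2 * (fderiv ℝ h w ξ.1) := by
        simp at d7
        linarith
      exact mul_left_cancel₀ hg2 d9
    have horth2 := horth ξ hTT
    rw [f_fderiv hΨ l hg, hdξ] at horth2
    -- the derivatives of f ∘ c
    have hΨc : ContDiffAt ℝ 2 (fun s => Ψ (γ s)) t :=
      (hΨ.of_le two_le_infty).contDiffAt.comp t hγ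
    have e1 : deriv (fun s => (100 / 113 : ℝ) • Ψ (th l g (c s))) =ᶠ[𝓝 t]
        fun s => (100 / 113 : ℝ) • deriv (fun s => Ψ (γ s)) s := by
      filter_upwards [hΨc.eventually (by simp)] with s hs
      exact ((hs.differentiableAt (by norm_num)).hasDerivAt.const_smul (100 / 113 : ℝ)).deriv
    have e2 : deriv (deriv (fun s => (100 / 113 : ℝ) • Ψ (th l g (c s)))) t =
        (100 / 113 : ℝ) • deriv (deriv (fun s => Ψ (γ s))) t := by
      rw [e1.deriv_eq]
      exact ((dderiv hΨc).const_smul (100 / 113 : ℝ)).deriv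
    have e3 := comp2 hΨ hγ
    rw [hγ2, hγ1t] at e3
    set Γ2 : E (q + j) := deriv (deriv (fun s => Ψ (γ s))) t with hΓ2
    have e4 : deriv (fun s => (100 / 113 : ℝ) • Ψ (th l g (c s))) t =
        (100 / 113 : ℝ) • fderiv ℝ Ψ (γ t) (y1, z1) := by
      rw [e1.self_of_nhds]
      show (100 / 113 : ℝ) • deriv (fun s => Ψ (γ s)) t = _
      congr 1
      have a1 : HasDerivAt γ (deriv γ t) t := (hγ.differentiableAt (by norm_num)).hasDerivAt
      have a2 : HasFDerivAt Ψ (fderiv ℝ Ψ (γ t)) (γ t) :=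
        (hΨ.differentiable (by simp) _).hasFDerivAt
      rw [← hγ1t]
      exact (a2.comp_hasDerivAt t a1).deriv
    obtain ⟨_, b1, b2, b3⟩ := hE (γ t) hz
    -- bound of S
    have hSb : 17 / 20 * S ≤ (113 / 100) ^ 2 := by
      have a1 := b1 (y1, z1)
      rw [e4, norm_smul, Real.norm_eq_abs, abs_of_pos (by norm_num : (0 : ℝ) < 100 / 113)] at h1
      have a2 : ‖fderiv ℝ Ψ (γ t) (y1, z1)‖ = 113 / 100 := by linarith
      rw [a2] at a1
      exact a1
    -- decomposition of Γ2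
    have f1 : (y2, z2) = τ + μ • ((-n, (2 : ℝ) • z t) : E q × E j) := by
      refine Prod.ext ?_ ?_
      · show y2 = (y2 + μ • n) + μ • (-n)
        rw [smul_neg]; abel
      · show z2 = (z2 - (2 * μ) • z t) + μ • ((2 : ℝ) • z t)
        rw [smul_smul, mul_comm μ 2]; abel
    have f2 : Γ2 = fderiv ℝ (fderiv ℝ Ψ) (γ t) (y1, z1) (y1, z1) + fderiv ℝ Ψ (γ t) τ +
        μ • fderiv ℝ Ψ (γ t) (-n, (2 : ℝ) • z t) := by
      rw [e3, f1, map_add, map_smul, add_assoc]
    have f3 : inner ℝ Γ2 (fderiv ℝ Ψ (γ t) τ) = 0 := by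
      rw [e2, inner_smul_left, inner_smul_right] at horth2
      have : inner ℝ Γ2 (fderiv ℝ Ψ (γ t) τ) * ((100 / 113 : ℝ) * (100 / 113)) = 0 := by
        have h := horth2
        simp only [conj_trivial] at h
        linarith
      rcases mul_eq_zero.1 this with h | h
      · exact h
      · norm_num at h
    have f4 : ‖fderiv ℝ Ψ (γ t) (-n, (2 : ℝ) • z t)‖ ≤ 277 / 100 * √ν2 := by
      have a1 := b2 (-n, (2 : ℝ) • z t)
      have a2 : ‖((-n, (2 : ℝ) • z t) : E q × E j).1‖ ^ 2 +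
          ‖((-n, (2 : ℝ) • z t) : E q × E j).2‖ ^ 2 = ν2 := by
        show ‖-n‖ ^ 2 + ‖(2 : ℝ) • z t‖ ^ 2 = ν2
        rw [norm_neg, norm_smul, hnn, mul_pow, hzt, hν2]
        norm_num
      rw [a2] at a1
      have a3 : (277 / 100 * √ν2) ^ 2 = (277 / 100) ^ 2 * ν2 := by
        rw [mul_pow, Real.sq_sqrt hν0.le]
      refine le_of_sq_le_sq ?_ (by positivity)
      rw [a3]
      nlinarith [a1, hν0]
    have f5 : ‖Γ2‖ ^ 2 ≤ ‖Γ2‖ * (9 * S + 277 / 100 * (23 * S)) := by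
      have a1 : ‖Γ2‖ ^ 2 = inner ℝ Γ2 (fderiv ℝ (fderiv ℝ Ψ) (γ t) (y1, z1) (y1, z1)) +
          μ * inner ℝ Γ2 (fderiv ℝ Ψ (γ t) (-n, (2 : ℝ) • z t)) := by
        rw [← real_inner_self_eq_norm_sq]
        nth_rewrite 2 [f2]
        rw [inner_add_right, inner_add_right, f3, inner_smul_right]
        ring
      have a2 : inner ℝ Γ2 (fderiv ℝ (fderiv ℝ Ψ) (γ t) (y1, z1) (y1, z1)) ≤
          ‖Γ2‖ * (9 * S) :=
        (real_inner_le_norm _ _).trans (mul_le_mul_of_nonneg_left (b3 (y1, z1)) (norm_nonneg _))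
      have a3 : μ * inner ℝ Γ2 (fderiv ℝ Ψ (γ t) (-n, (2 : ℝ) • z t)) ≤
          ‖Γ2‖ * (277 / 100 * (23 * S)) := by
        calc μ * inner ℝ Γ2 (fderiv ℝ Ψ (γ t) (-n, (2 : ℝ) • z t))
            ≤ |μ * inner ℝ Γ2 (fderiv ℝ Ψ (γ t) (-n, (2 : ℝ) • z t))| := le_abs_self _
          _ = |μ| * |inner ℝ Γ2 (fderiv ℝ Ψ (γ t) (-n, (2 : ℝ) • z t))| := abs_mul _ _
          _ ≤ |μ| * (‖Γ2‖ * (277 / 100 * √ν2)) := by
              refine mul_le_mul_of_nonneg_left ?_ (abs_nonneg _)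
              exact (abs_real_inner_le_norm _ _).trans
                (mul_le_mul_of_nonneg_left f4 (norm_nonneg _))
          _ = ‖Γ2‖ * (277 / 100 * (|μ| * √ν2)) := by ring
          _ ≤ ‖Γ2‖ * (277 / 100 * (23 * S)) := by
              refine mul_le_mul_of_nonneg_left ?_ (norm_nonneg _)
              refine mul_le_mul_of_nonneg_left hμb (by norm_num)
      rw [a1]
      linarith
    have f6 : ‖Γ2‖ ≤ 9 * S + 277 / 100 * (23 * S) := by
      rcases (norm_nonneg Γ2).eq_or_lt with h0 | h0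
      · rw [← h0]; positivity
      · have : ‖Γ2‖ * ‖Γ2‖ ≤ ‖Γ2‖ * (9 * S + 277 / 100 * (23 * S)) := by
          rw [← sq]; exact f5
        exact le_of_mul_le_mul_left this h0
    rw [e2, norm_smul, Real.norm_eq_abs, abs_of_pos (by norm_num : (0 : ℝ) < 100 / 113)]
    have : S ≤ (113 / 100) ^ 2 * (20 / 17) := by linarith
    nlinarith

end Pool.Agent.Helper50.BC
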