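import Mathlib

/-!
# Project BC (MP_eec6f5_gt, weight 1): immersions of bounded curvature of hypersurfaces

Gromov asks whether every simply connected hypersurface X of dimension m immerses in the unit ball
of R^(m+1) with curvature at most 100.  Known: yes for boundaries of regular neighbourhoods of
l-dimensional polyhedra in R^(N+1) when N is at least 200 l^2.

THEOREM.  For every compact smooth domain W = {h >= 0} of R^q and every j >= 10^7 q log q the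
hypersurface X_h = {(w, v) : |v|^2 = h(w)} of R^(q+j) (the smoothed boundary of W x D^j) immerses in
the unit ball of R^(q+j) with curvature at most 100.  (W is arbitrary; with W a regular
neighbourhood of an l-dimensional polyhedron in R^(2l+1) this gives N >= C l log l.)

PLAN.
1. `G_RAD`, `G_JLA`: moments of Rademacher sums, and a finite Johnson-Lindenstrauss lemma for
   random sign matrices.
2. `G_DER`, `G_SHX`, `G_NTV`, `G_MOM`, `G_CNT`: the random trigonometric map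
   F(x) = (N 2^q)^(-1/2) sum over the 2^q sign vectors e of (cos <e,x> P_e + sin <e,x> Q_e), with
   P_e, Q_e sign vectors of R^N, N >= 10^7 q log q, satisfies |F| <= 1.01, 0.99 |v| <= |DF v|
   <= 1.01 |v|, |D^2 F(u,v)| <= 1.75 |u||v|, |D^3 F(u,v,w)| <= 3.92 |u||v||w| on all of R^q
   (`TRG_data`).
3. `G_EIN`, `G_EMP`: E(y,z) = (F(3y/2) + z, (4/3) (D(F(3y/2)))^T z) is an immersion of
   R^q x {|z| <= 1/10} in R^(q+j), of size <= 1.13, with explicit bounds of the derivatives.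
4. `G_CHI`, `G_CAP`: X_h is moved, by a diffeomorphism (w,v) -> (l w, g(w) v) of R^q x R^j, to the
   hypersurface |z|^2 = Phi(y) with Phi <= 1/100 and curvature at most 23.
5. `G_ASM`: assembly.
Steps 2 (`TRG`) and the final theorem are put together by helper50.
-/

open scoped ContDiff
open Real

namespace Pool.Agent.Helper50.BC

/-- Euclidean space -/
abbrev E (n : ℕ) := EuclideanSpace ℝ (Fin n)

/-- the sign of a bit -/
noncomputable def sg (b : Bool) : ℝ := if b then 1 else -1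

/-- the signed sum of the numbers `u s` with the signs `b s` -/
noncomputable def sgsum {S : Type} [Fintype S] (u : S → ℝ) (b : S → Bool) : ℝ :=
  ∑ s, sg (b s) * u s

/-- RAD.  Moments of a Rademacher sum X = sum of the ± u_s, t2 = sum of the u_s^2.

PROOF.  More generally, for every real x and every finite type S the averages over b of
(x + X)^2, (x + X)^4, (x + X)^6, and exp(l (x+X)^2) satisfy
  E (x+X)^2 = x^2 + t2,  E (x+X)^4 ≤ x^4 + 6 x^2 t2 + 3 t2^2,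
  E (x+X)^6 ≤ x^6 + 15 x^4 t2 + 45 x^2 t2^2 + 15 t2^3,
  E exp(l (x+X)^2) ≤ exp(- (1/2) log(1 - 2 l t2) + l x^2/(1 - 2 l t2))   (l ≥ 0, 2 l t2 < 1).
Induction on S (for instance `Fintype.induction_empty_option` or an induction on n for `Fin n` with
`Fin.consEquiv`/`Fin.snoc`, then transport along `Fintype.equivFin`), adding one number u: the new
average is the mean of the old ones at x + u and x - u, and
  ((x+u)^2 + (x-u)^2)/2 = x^2 + u^2,  ((x+u)^4 + (x-u)^4)/2 = x^4 + 6x^2u^2 + u^4,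
  ((x+u)^6 + (x-u)^6)/2 = x^6 + 15x^4u^2 + 15x^2u^4 + u^6
(u^4 ≤ 3 (..) etc. leave the stated inequalities: e.g. the 4th: x^4+6x^2u^2+u^4 + 6(x^2+u^2)t2
+ 3 t2^2 ≤ x^4 + 6x^2(t2+u^2) + 3(t2+u^2)^2 as u^4 ≤ 3u^4; the 6th similarly).
For the exponential put a = l/(1 - 2 l t2) (old variance t2); the mean of exp(a (x ± u)^2) is
exp(a x^2 + a u^2) cosh(2 a x u) ≤ exp(a x^2 + a u^2 + 2 a^2 x^2 u^2) (`Real.cosh_le_exp_half_sq`).
It is then easier to peel the other way: put t2' = t2 + u^2, and integrate u FIRST: for the sum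
x + X + (±u), averaging over the sign of u first gives, with l,
exp(l y^2 + l u^2 + 2 l^2 y^2 u^2), y = x + X, i.e. exp(l u^2) exp(l' y^2) with
l' = l (1 + 2 l u^2) ≤ l/(1 - 2 l u^2); by induction (monotone in l)
E exp(l' y^2) ≤ exp(-(1/2) log(1 - 2 l' t2) + l' x^2/(1 - 2 l' t2)), and with
l'' = l/(1 - 2 l u^2):  1 - 2 l'' t2 = (1 - 2 l (u^2+t2))/(1 - 2 l u^2),
exp(l u^2) ≤ exp(-(1/2) log(1 - 2 l u^2)) (as log(1-s) ≤ -s), and the product is the claim.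
At x = 0: E exp(l X^2) ≤ exp(-(1/2) log(1 - 2t)) with t = l t2 ≤ 1/4, and
-(1/2) log(1 - 2t) ≤ t + 4 t^2 (log(1/(1-s)) ≤ s + s^2 for 0 ≤ s ≤ 1/2, s = 2t, so ≤ t + 2 t^2).
A simpler way to the last but one inequality, good enough, is welcome (only the stated
inequalities matter).  Lower exponential: exp(-y) ≤ 1 - y + y^2/2 for y ≥ 0, so
E exp(-l X^2) ≤ 1 - t + (3/2) t^2 ≤ exp(-t + (3/2) t^2). -/
def G_RAD : Prop := ∀ (S : Type) [Fintype S] [DecidableEq S] (u : S → ℝ),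
  (∑ b : S → Bool, (sgsum u b) ^ 2 = 2 ^ Fintype.card S * (∑ s, u s ^ 2)) ∧
  (∑ b : S → Bool, (sgsum u b) ^ 4 ≤ 2 ^ Fintype.card S * (3 * (∑ s, u s ^ 2) ^ 2)) ∧
  (∑ b : S → Bool, (sgsum u b) ^ 6 ≤ 2 ^ Fintype.card S * (15 * (∑ s, u s ^ 2) ^ 3)) ∧
  (∀ l : ℝ, 0 ≤ l → l * (∑ s, u s ^ 2) ≤ 1 / 4 →
    ∑ b : S → Bool, exp (l * (sgsum u b) ^ 2) ≤
      2 ^ Fintype.card S * exp (l * (∑ s, u s ^ 2) + 4 * (l * (∑ s, u s ^ 2)) ^ 2)) ∧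
  (∀ l : ℝ, 0 ≤ l →
    ∑ b : S → Bool, exp (-(l * (sgsum u b) ^ 2)) ≤
      2 ^ Fintype.card S * exp (-(l * (∑ s, u s ^ 2)) + 3 / 2 * (l * (∑ s, u s ^ 2)) ^ 2))

/-- JLA.  Finite Johnson-Lindenstrauss lemma for sign matrices with N rows.

PROOF.  Write t2 i = sum_s (u i s)^2.  If t2 i = 0 then u i = 0 and both inequalities are 0 ≤ 0 ≤ 0
for every A.  Let t2 i > 0 and l = d/(8 t2 i), so t = l t2 i = d/8 ≤ 1/4.
The number of A violating the upper inequality at i is at most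
sum over A of exp(l (sum_a X_a^2 - (1+d) N t2)), with X_a = sgsum (u i) (A a); the sum over A is the
N-th power of the sum over one row (`Finset.prod_univ_sum`/`Fintype.piFinset`,
`Finset.sum_pow'`-like: sum over A of prod_a g (A a) = (sum_b g b)^N), so with (hR : G_RAD) it is
≤ (2^card S)^N exp(N (-t (1+d) + t + 4 t^2)) = (number of A) exp(N (-d^2/8 + d^2/16))
= (number of A) exp(-N d^2/16).  Lower inequality: sum over A of exp(l ((1-d) N t2 - sum_a X_a^2)) ≤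
(number of A) exp(N (t (1-d) - t + (3/2) t^2)) = (number of A) exp(N(-d^2/8 + 3 d^2/128)) ≤
(number of A) exp(-N d^2/16).  Sum over i and the two sides: the number of bad A is at most
(number of A) 2 card(I) exp(-N d^2/16) < number of A. -/
def G_JLA : Prop := ∀ (S I : Type) [Fintype S] [DecidableEq S] [Fintype I] (N : ℕ)
  (u : I → S → ℝ) (d : ℝ), 0 < d → d ≤ 2 →
  2 * (Fintype.card I : ℝ) * exp (-(N * d ^ 2 / 16)) < 1 →
  ∃ A : Fin N → S → Bool, ∀ i,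
    (1 - d) * (N * ∑ s, u i s ^ 2) ≤ ∑ a, (sgsum (u i) (A a)) ^ 2 ∧
    ∑ a, (sgsum (u i) (A a)) ^ 2 ≤ (1 + d) * (N * ∑ s, u i s ^ 2)

/-- the pairing of a sign vector with a vector -/
noncomputable def pr {q : ℕ} (e : Fin q → Bool) (x : E q) : ℝ := ∑ i, sg (e i) * x i

/-- the coefficients of one coordinate of the trigonometric map -/
noncomputable def cf {q : ℕ} (w : (Fin q → Bool) → ℝ) (φ : ℝ) (x : E q) :
    (Fin q → Bool) × Bool → ℝ :=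
  fun s => w s.1 * (if s.2 then Real.sin (pr s.1 x + φ) else Real.cos (pr s.1 x + φ))

/-- the weighted trigonometric map of the sign matrix A, phase φ -/
noncomputable def RR {q N : ℕ} (A : Fin N → ((Fin q → Bool) × Bool) → Bool)
    (w : (Fin q → Bool) → ℝ) (φ : ℝ) (x : E q) : E N :=
  WithLp.toLp 2 (fun a => (√((N : ℝ) * 2 ^ q))⁻¹ * sgsum (cf w φ x) (A a))

/-- DER.  Derivatives of the trigonometric map F = RR A 1 0.

PROOF.  For fixed w, φ the map x ↦ RR A w φ x has at every x the derivative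
v ↦ RR A (fun e => pr e v * w e) (φ + π/2) x, because d/dv of cos(pr e x + φ) is
-(pr e v) sin(pr e x + φ) = (pr e v) cos(pr e x + φ + π/2) and d/dv of sin(pr e x + φ) is
(pr e v) cos(pr e x + φ) = (pr e v) sin(pr e x + φ + π/2) (coordinatewise; `pr e` is linear).
RR A w φ is smooth.  For fixed vectors the map x ↦ fderiv F x v is RR A (pr · v) (π/2), whose
derivative is computed in the same way, and
fderiv (fderiv F) x u v = derivative at x along u of x ↦ fderiv F x v; once more for the third. -/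
def G_DER : Prop := ∀ (q N : ℕ) (A : Fin N → ((Fin q → Bool) × Bool) → Bool),
  ContDiff ℝ ∞ (RR A (fun _ => 1) 0) ∧
  (∀ x v, fderiv ℝ (RR A (fun _ => 1) 0) x v = RR A (fun e => pr e v) (π / 2) x) ∧
  (∀ x u v, fderiv ℝ (fderiv ℝ (RR A (fun _ => 1) 0)) x u v =
    RR A (fun e => pr e u * pr e v) π x) ∧
  (∀ x u v w, fderiv ℝ (fderiv ℝ (fderiv ℝ (RR A (fun _ => 1) 0))) x u v w =
    RR A (fun e => pr e u * pr e v * pr e w) (3 * π / 2) x)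

/-- the grid of the torus: coordinates 2 π m_i/(7000 q) -/
noncomputable def gx {q : ℕ} (m : Fin q → Fin (7000 * q)) : E q :=
  WithLp.toLp 2 (fun i => 2 * π * ((m i : ℕ) : ℝ) / (7000 * q))

/-- the net of the unit ball: coordinates (l_i - 1000 q)/(1000 q), l_i = 0, ..., 2000 q -/
noncomputable def gv {q : ℕ} (l : Fin q → Fin (2000 * q + 1)) : E q :=
  WithLp.toLp 2 (fun i => (((l i : ℕ) : ℝ) - 1000 * q) / (1000 * q))

/-- SHX.  From the grid of the torus to all x.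

PROOF.  Let w, φ be fixed and R = RR A w φ.
(a) Shift identity: RR A w φ (x + d e_j) = cos d • R(x) + sin d • R(x + (π/2) e_j) for real d
(e_j the j-th basis vector): with c = pr e x + φ and s = sg (e j) = ±1, pr e (x + d e_j) = pr e x
+ s d; cos(c + s d) = cos d cos c - s sin d sin c = cos d cos c + sin d cos(c + s π/2), and the same
for sin.
(b) R is bounded (each coordinate is a finite sum of bounded terms), so B = sup |R| is finite, and by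
(a) |R(x + d e_j) - R(x)| ≤ (1 - cos d + |sin d|) B ≤ (|d| + d^2/2) B.
(c) R is 2π-periodic in each coordinate (s 2π shifts), so every x can be reduced modulo 2π in every
coordinate to [0, 2π)^q, and rounding every coordinate down to a multiple of 2π/(7000 q) gives a
grid point gx m; moving the q coordinates one after another, each by at most d = 2π/(7000 q),
|R(x) - R(gx m)| ≤ q (d + d^2/2) B ≤ B/1000 (q d ≤ 0.8977/1000, q d^2/2 ≤ 0.001/1000).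
(d) So B ≤ M + B/1000, i.e. B ≤ M/(1 - 1/1000) = 1000 M/999, and |R(x) - R(gx m)| ≤ M/999.
(Instead of the supremum one can prove by induction on n that |R(x)| ≤ 1000 M/999 + B'/1000^n for
all x, B' any bound of |R|.) -/
def G_SHX : Prop := ∀ (q N : ℕ), 1 ≤ q → ∀ (A : Fin N → ((Fin q → Bool) × Bool) → Bool)
  (w : (Fin q → Bool) → ℝ) (φ M : ℝ),
  (∀ m : Fin q → Fin (7000 * q), ‖RR A w φ (gx m)‖ ≤ M) →
  ∀ x, ‖RR A w φ x‖ ≤ 1000 / 999 * M ∧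
    ∃ m : Fin q → Fin (7000 * q), ‖RR A w φ x - RR A w φ (gx m)‖ ≤ M / 999

/-- NTV.  From the net of the unit ball to all vectors, for a multilinear map of k ≤ 3 vectors.

PROOF.  Let v be in the unit ball and v° the vector with coordinates
sign(v_i) ⌊1000 q |v_i|⌋/(1000 q): it is gv l for some l (|v_i| ≤ 1), |v°| ≤ |v| ≤ 1 (each
coordinate shrinks) and |v - v°| ≤ √q/(1000 q) ≤ 1/1000.
(First part.) T is bounded (finite dimension: `T.mkContinuousMultilinear`,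
`MultilinearMap.exists_bound_of_continuous`), so S = sup of |T v| over v_i in the unit ball is
finite.  For such v, T v - T v° is a telescoping sum of k terms, in each of which one entry is
v_i - v_i° (size ≤ 1/1000) and the others are v_i' or v°_i' in the unit ball, so by homogeneity
|T v - T v°| ≤ k S/1000 ≤ 3 S/1000, hence S ≤ M + 3S/1000, S ≤ 1000 M/997; homogeneity gives the
claim for all v (if some v_i = 0, T v = 0).  (`MultilinearMap.map_sub`, or `map_piecewise_sub...`;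
one can also treat k = 0, 1, 2, 3 separately.)
(Second part.) Let |v| = 1 (homogeneity).  |T v| ≥ |T v°| - |T (v - v°)| ≥ a |v°| - M/1000 ≥
a (1 - 1/1000) - M/1000. -/
def G_NTV : Prop := ∀ (q : ℕ), 1 ≤ q → ∀ (Y : Type) [NormedAddCommGroup Y] [NormedSpace ℝ Y]
  [FiniteDimensional ℝ Y],
  (∀ (k : ℕ), k ≤ 3 → ∀ (T : MultilinearMap ℝ (fun _ : Fin k => E q) Y) (M : ℝ), 0 ≤ M →
    (∀ l : Fin k → Fin q → Fin (2000 * q + 1), (∀ i, ‖gv (l i)‖ ≤ 1) →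
      ‖T (fun i => gv (l i))‖ ≤ M) →
    ∀ v, ‖T v‖ ≤ 1000 / 997 * M * ∏ i, ‖v i‖) ∧
  (∀ (T : E q →ₗ[ℝ] Y) (a M : ℝ), 0 ≤ a → 0 ≤ M → (∀ v, ‖T v‖ ≤ M * ‖v‖) →
    (∀ l : Fin q → Fin (2000 * q + 1), ‖gv l‖ ≤ 1 → a * ‖gv l‖ ≤ ‖T (gv l)‖) →
    ∀ v, (999 / 1000 * a - M / 1000) * ‖v‖ ≤ ‖T v‖)

/-- MOM.  Moments of products of at most three pairings.

PROOF.  By homogeneity let all vectors have norm 1 (if one is 0 the left side is 0).  With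
a = (pr e u)^2, b = (pr e v)^2, c = (pr e w)^2: sum a = 2^q; a b ≤ (a^2 + b^2)/2 and
sum a^2 ≤ 3 · 2^q; a b c ≤ (a^3 + b^3 + c^3)/3 and sum a^3 ≤ 15 · 2^q ((hR : G_RAD), pr e u is
sgsum u e up to the coercion of u to a function; ‖u‖^2 = sum of the squares of the coordinates). -/
def G_MOM : Prop := ∀ (q : ℕ) (u v w : E q),
  (∑ e : Fin q → Bool, (pr e u) ^ 2 = 2 ^ q * ‖u‖ ^ 2) ∧
  (∑ e : Fin q → Bool, (pr e u * pr e v) ^ 2 ≤ 2 ^ q * (3 * (‖u‖ ^ 2 * ‖v‖ ^ 2))) ∧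
  (∑ e : Fin q → Bool, (pr e u * pr e v * pr e w) ^ 2 ≤
    2 ^ q * (15 * (‖u‖ ^ 2 * ‖v‖ ^ 2 * ‖w‖ ^ 2)))

/-- CNT.  Counting.

PROOF.  N/160000 ≥ 62.5 q log q.  2 · 4 · (7000 q)^q (2000 q + 1)^(3q) ≤ 8 (7000 q)^(4q), of
logarithm log 8 + 4 q log(7000 q); log 7000 ≤ 12.8 log 2 (7000 ≤ 2^12.8, e.g. 7000^5 ≤ 2^64) so
log(7000 q) ≤ 12.8 log 2 + log q ≤ 13.8 log q, and log 8 = 3 log 2 ≤ 1.5 q log q; total
≤ (55.2 + 1.5) q log q < 62.5 q log q. -/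
def G_CNT : Prop := ∀ (q N : ℕ), 2 ≤ q → (10 : ℝ) ^ 7 * (q * Real.log q) ≤ N →
  2 * ((4 * (7000 * q) ^ q * ((2000 * q + 1) ^ q) ^ 3 : ℕ) : ℝ) *
    exp (-(N * (1 / 100 : ℝ) ^ 2 / 16)) < 1

/-- the bounds of the trigonometric map (to be deduced from the above) -/
def TRG_data {q j : ℕ} (F : E q → E j) : Prop :=
  ContDiff ℝ ∞ F ∧ (∀ x, ‖F x‖ ≤ 101 / 100) ∧
  (∀ x v, 99 / 100 * ‖v‖ ≤ ‖fderiv ℝ F x v‖) ∧
  (∀ x v, ‖fderiv ℝ F x v‖ ≤ 101 / 100 * ‖v‖) ∧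
  (∀ x u v, ‖fderiv ℝ (fderiv ℝ F) x u v‖ ≤ 7 / 4 * (‖u‖ * ‖v‖)) ∧
  (∀ x u v w, ‖fderiv ℝ (fderiv ℝ (fderiv ℝ F)) x u v w‖ ≤ 98 / 25 * (‖u‖ * ‖v‖ * ‖w‖))

/-- the trigonometric map exists -/
def G_TRG : Prop := ∀ (q j : ℕ), 2 ≤ q → (10 : ℝ) ^ 7 * (q * Real.log q) ≤ j →
  ∃ F : E q → E j, TRG_data F

/-- EIN.  The algebraic inequalities for the map E.  L is the differential of y ↦ F(3y/2)
(norm between 1.485 and 1.515), B v = second differential (in the direction v) so that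
|B| ≤ 3.9375, z is in the ball of radius 1/10; `t` stands for (L^T ζ) and `s` for (B(v))^T z.

PROOF of the lower bound.  Put a = ‖v‖, b = ‖ζ‖, τ = ‖t‖.  ‖L v + ζ‖^2 = ‖L v‖^2 + 2 <L v, ζ> + b^2
= ‖L v‖^2 + 2 <v, t> + b^2 ≥ 2.205 a^2 - 2 a τ + b^2; τ ≤ 1.515 b (τ^2 = <t,t> = <L t, ζ> ≤
1.515 τ b); ‖s‖ ≤ 0.39375 a (‖s‖^2 = <s,s> = <B s, z> ≤ 3.9375 a ‖s‖/10).  Also
‖t + s‖ ≥ τ - 0.39375 a.  So the left side minus (17/20)(a^2 + b^2) is at least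
(2.205 - 0.85) a^2 - 2 a τ + 0.15 b^2 + (16/9) max(0, τ - 0.39375 a)^2, and 0.15 b^2 ≥
0.15 τ^2/2.2953.  If τ ≥ 0.39375 a: it is ≥ 1.6306 a^2 - 3.4 a τ + 1.843 τ^2 (coefficients
1.355 + (16/9)·0.15504 = 1.6306, 2 + (16/9)·0.7875 = 3.4, 0.06535 + 1.7777 = 1.8431), of
discriminant 11.56 - 4·1.6306·1.843 = -0.46 < 0.  If τ ≤ 0.39375 a: 1.355 a^2 - 2 a τ ≥
(1.355 - 0.7875) a^2 ≥ 0.
Upper bound: ‖L v + ζ‖ ≤ 1.515 a + b, its square ≤ (2.2953 + 1)(a^2 + b^2) (Cauchy-Schwarz);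
‖t + s‖ ≤ 1.515 b + 0.39375 a, its square ≤ (2.2953 + 0.1551)(a^2 + b^2); total
3.2953 + (16/9)·2.4504 = 7.652 ≤ 7.67. -/
def G_EIN : Prop := ∀ (q j : ℕ) (L B : E q →L[ℝ] E j) (v t s : E q) (z ζ : E j),
  (∀ u, 297 / 200 * ‖u‖ ≤ ‖L u‖) → (∀ u, ‖L u‖ ≤ 303 / 200 * ‖u‖) →
  (∀ u, ‖B u‖ ≤ 63 / 16 * (‖v‖ * ‖u‖)) → ‖z‖ ≤ 1 / 10 →
  (∀ u, inner ℝ t u = inner ℝ ζ (L u)) → (∀ u, inner ℝ s u = inner ℝ z (B u)) →
  17 / 20 * (‖v‖ ^ 2 + ‖ζ‖ ^ 2) ≤ ‖L v + ζ‖ ^ 2 + 16 / 9 * ‖t + s‖ ^ 2 ∧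
  ‖L v + ζ‖ ^ 2 + 16 / 9 * ‖t + s‖ ^ 2 ≤ 767 / 100 * (‖v‖ ^ 2 + ‖ζ‖ ^ 2)

/-- the bounds of the map E of step 3 -/
def EMP_data {q j : ℕ} (Ψ : E q × E j → E (q + j)) : Prop :=
  ContDiff ℝ ∞ Ψ ∧ ∀ p, ‖p.2‖ ≤ 1 / 10 →
    ‖Ψ p‖ ≤ 113 / 100 ∧
    (∀ ξ, 17 / 20 * (‖ξ.1‖ ^ 2 + ‖ξ.2‖ ^ 2) ≤ ‖fderiv ℝ Ψ p ξ‖ ^ 2) ∧
    (∀ ξ, ‖fderiv ℝ Ψ p ξ‖ ^ 2 ≤ 767 / 100 * (‖ξ.1‖ ^ 2 + ‖ξ.2‖ ^ 2)) ∧
    (∀ ξ, ‖fderiv ℝ (fderiv ℝ Ψ) p ξ ξ‖ ≤ 9 * (‖ξ.1‖ ^ 2 + ‖ξ.2‖ ^ 2))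

/-- EMP.  From the trigonometric map F to the map E.

PROOF (with (hI : G_EIN)).  H(y) = F((3/2) • y); H is smooth, ‖H‖ ≤ 1.01, D H(y) v =
(3/2) DF(3y/2) v, D²H(y)(u,v) = (9/4) D²F, D³H = (27/8) D³F, so 1.485 ‖v‖ ≤ ‖DH v‖ ≤ 1.515 ‖v‖,
‖D²H(u,v)‖ ≤ 3.9375 ‖u‖‖v‖, ‖D³H(u,v,w)‖ ≤ 13.23 ‖u‖‖v‖‖w‖.
Let J : E j × E q →L E (q + j) be a continuous linear map with ‖J(a,b)‖² = ‖a‖² + ‖b‖² (e.g. put the
coordinates one after the other: `Fin.addCases`, `Fin.sum_univ_add`; or `WithLp.prod...`/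
`stdOrthonormalBasis` isometries), and K(y, z) ∈ E q the vector with <K(y,z), u> = <z, DH(y) u> for
all u (its i-th coordinate is <z, DH(y) e_i>, so K is smooth; or `ContinuousLinearMap.adjoint`).
Ψ(y, z) = J(H(y) + z, (4/3) • K(y, z)).  It is smooth.  At p = (y, z), ξ = (v, ζ):
dΨ(ξ) = J(DH v + ζ, (4/3)(t + s)) with <t,u> = <ζ, DH(y) u>, <s,u> = <z, D²H(y)(v)(u)>
(and D²H(y)(v) plays the role of B in G_EIN), so the two bounds of dΨ are G_EIN.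
‖Ψ‖² = ‖H + z‖² + (16/9) ‖K‖² ≤ (1.11)² + (16/9)(1.515/10)² ≤ 1.2730 ≤ 1.13².
d²Ψ(ξ,ξ) = J(D²H(v,v), (4/3)(r + 2 m)) with <r,u> = <z, D³H(v,v,u)>, <m,u> = <ζ, D²H(v,u)>
(symmetry of the second derivative is needed only if one writes it that way), so its norm is at most
3.9375 a² + (4/3)(1.323 a² + 2·3.9375 a b) = 5.7015 a² + 10.5 a b ≤ 9 (a² + b²), a = ‖v‖, b = ‖ζ‖
((10.5)² = 110.25 ≤ 4·3.2985·9).
(To compute: fderiv (fderiv Ψ) p ξ ξ is the derivative at τ = 0 of τ ↦ fderiv Ψ (p + τ ξ) ξ.) -/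
def G_EMP : Prop := ∀ (q j : ℕ) (F : E q → E j), TRG_data F →
  ∃ Ψ : E q × E j → E (q + j), EMP_data Ψ

/-- CHI.  The function (1 - exp(-t))/t is smooth and positive.

PROOF.  Integral formula: (1 - exp(-t))/t = ∫_0^1 exp(-s t) ds, smooth by differentiation under the
integral sign (`contDiff_parametric...`), or, more simply, `dslope`: f(t) = 1 - exp(-t) is analytic
with f 0 = 0, and χ = dslope f 0 is analytic at 0 (`HasFPowerSeriesAt.has_fpower_series_dslope_fslope`)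
and equals f(t)/t, analytic, at t ≠ 0; so it is analytic everywhere, hence ContDiff.  Positive:
1 - exp(-t) has the sign of t, and χ 0 = f'(0) = 1. -/
def G_CHI : Prop := ∃ χ : ℝ → ℝ, ContDiff ℝ ∞ χ ∧ (∀ t, 0 < χ t) ∧
  ∀ t, t * χ t = 1 - exp (-t)

/-- the data of step 4: l > 0 and smooth functions g > 0, Φ with Φ(l w) = g(w)² h(w), so that
(w, v) ↦ (l w, g(w) v) moves |v|² = h(w) to |z|² = Φ(y); the gradient of G(y,z) = |z|² - Φ(y) has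
square norm |∇Φ|² + 4 Φ, its second differential is 2|ζ|² - D²Φ(v,v) (s stands for |ζ|²). -/
def CAP_data {q : ℕ} (h : E q → ℝ) (l : ℝ) (g Φ : E q → ℝ) : Prop :=
  0 < l ∧ ContDiff ℝ ∞ g ∧ (∀ w, 0 < g w) ∧ ContDiff ℝ ∞ Φ ∧
  (∀ w, Φ (l • w) = (g w) ^ 2 * h w) ∧
  ∀ y, 0 ≤ Φ y → Φ y ≤ 1 / 100 ∧ 0 < ‖fderiv ℝ Φ y‖ ^ 2 + 4 * Φ y ∧
    ∀ (v : E q) (s : ℝ), 0 ≤ s →
      |2 * s - fderiv ℝ (fderiv ℝ Φ) y v v| ≤
        23 * √(‖fderiv ℝ Φ y‖ ^ 2 + 4 * Φ y) * (‖v‖ ^ 2 + s)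

/-- CAP.

PROOF (with (hc : G_CHI)).  Let ρ = 1/10, K = {h ≥ 0}, n(w) = √(‖Dh(w)‖² + h(w)²), which is
positive everywhere (Dh ≠ 0 where h = 0) and smooth, h₁ = h/n, smooth, with K = {h₁ ≥ 0}.  At a
point with h = 0: D h₁ = Dh/n and n = ‖Dh‖, so ‖D h₁‖ = 1.
(a) Let H ≥ 0 bound ‖D h₁‖² and ‖D² h₁‖ on the compact set K.
(b) There is d > 0 with: w ∈ K, h₁(w) < d ⟹ | ‖D h₁(w)‖² - 1 | ≤ 1/100.  (The set of w ∈ K with
| ‖D h₁‖² - 1 | ≥ 1/100 is compact and h₁ > 0 on it: if it is empty d = 1, otherwise d = the minimum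
of h₁ on it.)
(c) Choose l > 0 so large that (2ρ/l) H ≤ 1/100 and exp(-2 l d/ρ) (4 H + 1) ≤ 1/100.
Define Φ(y) = ρ² (1 - exp(-(2 l/ρ) h₁(y/l))), g(w) = √(2 ρ l χ(2 l h₁(w)/ρ)/n(w)), smooth and
positive, and g² h = 2 ρ l χ(2 l h₁/ρ) h₁ = ρ² (1 - exp(-2 l h₁/ρ)) = Φ(l w).
(d) Let 0 ≤ Φ y, w = y/l; then h₁(w) ≥ 0, i.e. w ∈ K.  e = exp(-(2l/ρ) h₁(w)) ∈ (0, 1],
Φ = ρ²(1 - e) ≤ 1/100.  DΦ(y) v = 2 ρ e Dh₁(w) v, so ‖DΦ‖² + 4Φ = 4 ρ² (e² N + 1 - e),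
N = ‖D h₁(w)‖²; D²Φ(y)(v,v) = -4 e (Dh₁(w) v)² + (2ρ e/l) D²h₁(w)(v,v).
So |2 s - D²Φ(v,v)| ≤ 2 s + (4 e N + (2ρ/l) e H) ‖v‖², and 23 √(..) = 23·2ρ √(e²N + 1 - e) =
4.6 √(e² N + 1 - e).  It remains to see that 2 ≤ 4.6 √(e² N + 1 - e) and
4 e N + (2ρ/l) e H ≤ 4.6 √(e² N + 1 - e).
 Case h₁(w) < d: 0.99 ≤ N ≤ 1.01: e² N + 1 - e ≥ 0.99 e² + 1 - e ≥ 0.74, √ ≥ 0.86, 4.6·0.86 ≥ 2;
 and 4 e N + e/100 ≤ 4.05 e, while 4.6² (0.99 e² + 1 - e) ≥ 4.6² · 0.99 e² ≥ 20.9 e² ≥ (4.05 e)².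
 Case h₁(w) ≥ d: e ≤ 1/100 and e (4 N + 1) ≤ 1/100, so the left sides are ≤ 2 and ≤ 1/50,
 and √(..) ≥ √(1 - e) ≥ 0.99. -/
def G_CAP : Prop := ∀ (q : ℕ) (h : E q → ℝ), ContDiff ℝ ∞ h → IsCompact {w | 0 ≤ h w} →
  (∀ w, h w = 0 → fderiv ℝ h w ≠ 0) → ∃ (l : ℝ) (g Φ : E q → ℝ), CAP_data h l g Φ

/-- the hypersurface X_h -/
def XX {q : ℕ} (j : ℕ) (h : E q → ℝ) : Set (E q × E j) := {p | ‖p.2‖ ^ 2 = h p.1}

/-- the tangent vectors of X_h at the point p -/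
def TT {q j : ℕ} (h : E q → ℝ) (p ξ : E q × E j) : Prop :=
  2 * inner ℝ p.2 ξ.2 = fderiv ℝ h p.1 ξ.1

/-- the conclusion: f is smooth, maps X_h to the unit ball, is an immersion on X_h, and has
curvature at most 100 there -/
def GOOD {q j : ℕ} (h : E q → ℝ) (f : E q × E j → E (q + j)) : Prop :=
  ContDiff ℝ ∞ f ∧ (∀ p ∈ XX j h, ‖f p‖ ≤ 1) ∧
  (∀ p ∈ XX j h, ∀ ξ, TT h p ξ → fderiv ℝ f p ξ = 0 → ξ = 0) ∧
  ∀ (c : ℝ → E q × E j) (t : ℝ), ContDiffAt ℝ 2 c t → (∀ᶠ s in nhds t, c s ∈ XX j h) →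
    ‖deriv (fun s => f (c s)) t‖ = 1 →
    (∀ ξ, TT h (c t) ξ → inner ℝ (deriv (deriv (fun s => f (c s))) t) (fderiv ℝ f (c t) ξ) = 0) →
    ‖deriv (deriv (fun s => f (c s))) t‖ ≤ 100

/-- ASM.  The assembly.

PROOF.  θ(w, v) = (l w, g(w) v), f = (100/113) • Ψ ∘ θ.  At p = (w, v) ∈ X_h, θ(p) = (y, z) with
‖z‖² = g² ‖v‖² = g² h = Φ(y) ≤ 1/100, so ‖f‖ ≤ 1.  dθ(ξ) = (l ξ₁, g ξ₂ + (dg ξ₁) v) is
injective and dΨ is injective at θ(p): immersion.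
Curvature.  Let γ = θ ∘ c, Γ = Ψ ∘ γ = (113/100) f ∘ c.  G(y,z) = ‖z‖² - Φ(y) vanishes on γ near t;
with N = (-∇Φ(y), 2 z) at (y,z) = γ(t), ν² = ‖∇Φ‖² + 4 ‖z‖² = ‖DΦ‖² + 4 Φ > 0, the second
derivative of G ∘ γ at t gives <N, γ''> = -(2 ‖ζ‖² - D²Φ(v',v')), γ' = (v', ζ) (inner product of
E q × E j componentwise), so |<N, γ''>| ≤ 23 ν |γ'|².  Write γ'' = τ + μ N, μ = <N,γ''>/ν², so
<N, τ> = 0 and |μ| ν ≤ 23 |γ'|².  τ = dθ(ξ) with ξ₁ = τ₁/l, ξ₂ = (τ₂ - (dg ξ₁) v)/g, and ξ is tangent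
(TT h (c t) ξ): differentiate Φ(l w) = g² h: DΦ(y)(l ξ₁) = 2 g (dg ξ₁) h + g² dh ξ₁, and
<N,τ> = 2 <g v, g ξ₂ + (dg ξ₁) v> - DΦ(l ξ₁) = 2 g² <v, ξ₂> + 2 g (dg ξ₁) ‖v‖² - 2 g (dg ξ₁) h -
g² dh ξ₁ = g² (2 <v,ξ₂> - dh ξ₁) as ‖v‖² = h.  So Γ'' ⟂ dΨ(τ), and Γ'' = D²Ψ(γ',γ') + dΨ(γ'') =
D²Ψ(γ',γ') + dΨ(τ) + μ dΨ(N); pairing with Γ'': ‖Γ''‖ ≤ 9 |γ'|² + |μ| 2.77 ν ≤
(9 + 63.71) |γ'|² = 72.71 |γ'|² (7.67 ≤ 2.77²).  (113/100)² = ‖Γ'‖² ≥ 0.85 |γ'|².  So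
‖(f∘c)''‖ = (100/113) ‖Γ''‖ ≤ (100/113) · 72.71 · (1.13)²/0.85 = 96.7 ≤ 100. -/
def G_ASM : Prop := ∀ (q j : ℕ) (h : E q → ℝ) (Ψ : E q × E j → E (q + j)) (l : ℝ) (g Φ : E q → ℝ),
  ContDiff ℝ ∞ h → EMP_data Ψ → CAP_data h l g Φ → ∃ f : E q × E j → E (q + j), GOOD h f

end Pool.Agent.Helper50.BC
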