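import Pool.Agent.Helper50.BC.Goals

/-!
# Project BC, TRG: the random trigonometric map (assembly of step 2)
-/

open scoped ContDiff
open Real

namespace Pool.Agent.Helper50.BC

variable {q N : ℕ}

lemma pr_add (e : Fin q → Bool) (x y : E q) : pr e (x + y) = pr e x + pr e y := by
  simp only [pr, PiLp.add_apply, mul_add, Finset.sum_add_distrib]

lemma pr_smul (e : Fin q → Bool) (c : ℝ) (x : E q) : pr e (c • x) = c * pr e x := by
  simp only [pr, PiLp.smul_apply, smul_eq_mul, Finset.mul_sum]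
  exact Finset.sum_congr rfl fun i _ => by ring

/-- pairing as a linear map -/
noncomputable def prL (e : Fin q → Bool) : E q →ₗ[ℝ] ℝ where
  toFun := pr e
  map_add' := pr_add e
  map_smul' c x := pr_smul e c x

lemma RR_add (A : Fin N → ((Fin q → Bool) × Bool) → Bool) (w w' : (Fin q → Bool) → ℝ) (φ : ℝ)
    (x : E q) : RR A (w + w') φ x = RR A w φ x + RR A w' φ x := by
  ext a
  simp only [RR, PiLp.add_apply, sgsum, cf, Pi.add_apply, add_mul, mul_add, Finset.sum_add_distrib]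

lemma RR_smul (A : Fin N → ((Fin q → Bool) × Bool) → Bool) (c : ℝ) (w : (Fin q → Bool) → ℝ)
    (φ : ℝ) (x : E q) : RR A (c • w) φ x = c • RR A w φ x := by
  ext a
  simp only [RR, PiLp.smul_apply, sgsum, cf, Pi.smul_apply, smul_eq_mul]
  rw [mul_left_comm]
  congr 1
  rw [Finset.mul_sum]
  refine Finset.sum_congr rfl fun s _ => ?_
  ring

/-- the trigonometric map, linear in the weight -/
noncomputable def RL (A : Fin N → ((Fin q → Bool) × Bool) → Bool) (φ : ℝ) (x : E q) :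
    ((Fin q → Bool) → ℝ) →ₗ[ℝ] E N where
  toFun w := RR A w φ x
  map_add' w w' := RR_add A w w' φ x
  map_smul' c w := RR_smul A c w φ x

/-- the multilinear map -/
noncomputable def TM (k : ℕ) (A : Fin N → ((Fin q → Bool) × Bool) → Bool) (φ : ℝ) (x : E q) :
    MultilinearMap ℝ (fun _ : Fin k => E q) (E N) :=
  (RL A φ x).compMultilinearMap (MultilinearMap.pi fun e =>
    (MultilinearMap.mkPiAlgebra ℝ (Fin k) ℝ).compLinearMap (fun _ => prL e))

lemma TM_apply (k : ℕ) (A : Fin N → ((Fin q → Bool) × Bool) → Bool) (φ : ℝ) (x : E q)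
    (v : Fin k → E q) : TM k A φ x v = RR A (fun e => ∏ i, pr e (v i)) φ x := by
  show RL A φ x _ = _
  show RR A _ φ x = _
  congr 1

/-- the linear map for k = 1 -/
noncomputable def T1 (A : Fin N → ((Fin q → Bool) × Bool) → Bool) (φ : ℝ) (x : E q) :
    E q →ₗ[ℝ] E N :=
  (RL A φ x).comp (LinearMap.pi fun e => prL e)

lemma T1_apply (A : Fin N → ((Fin q → Bool) × Bool) → Bool) (φ : ℝ) (x : E q) (v : E q) :
    T1 A φ x v = RR A (fun e => pr e v) φ x := rfl

lemma cf_sq (w : (Fin q → Bool) → ℝ) (φ : ℝ) (x : E q) :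
    ∑ s, (cf w φ x s) ^ 2 = ∑ e, (w e) ^ 2 := by
  rw [Fintype.sum_prod_type]
  refine Finset.sum_congr rfl fun e _ => ?_
  simp only [cf, Fintype.sum_bool, if_true, Bool.false_eq_true, if_false, mul_pow]
  rw [← mul_add, Real.sin_sq_add_cos_sq, mul_one]

lemma RR_sq (A : Fin N → ((Fin q → Bool) × Bool) → Bool) (w : (Fin q → Bool) → ℝ) (φ : ℝ)
    (x : E q) : ‖RR A w φ x‖ ^ 2 = ((N : ℝ) * 2 ^ q)⁻¹ * ∑ a, (sgsum (cf w φ x) (A a)) ^ 2 := by
  rw [EuclideanSpace.norm_sq_eq, Finset.mul_sum]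
  refine Finset.sum_congr rfl fun a _ => ?_
  show ‖(√((N : ℝ) * 2 ^ q))⁻¹ * sgsum (cf w φ x) (A a)‖ ^ 2 = _
  rw [Real.norm_eq_abs, sq_abs, mul_pow, inv_pow, Real.sq_sqrt (by positivity)]

/-- the weights of the finite family -/
noncomputable def wt (k : Fin 4) (v : Fin 3 → E q) (e : Fin q → Bool) : ℝ :=
  ![1, pr e (v 0), pr e (v 0) * pr e (v 1), pr e (v 0) * pr e (v 1) * pr e (v 2)] k

/-- the phases -/
noncomputable def ph (k : Fin 4) : ℝ := ![0, π / 2, π, 3 * π / 2] k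

theorem goalTRG (hJ : G_JLA) (hD : G_DER) (hS : G_SHX) (hV : G_NTV) (hM : G_MOM)
    (hC : G_CNT) : G_TRG := by
  intro q N hq hN
  have hq1 : 1 ≤ q := by omega
  have hqpos : (0 : ℝ) < q := by exact_mod_cast (by omega : 0 < q)
  have hlog : 0 < Real.log q := Real.log_pos (by exact_mod_cast (by omega : 1 < q))
  have hNpos : (0 : ℝ) < N := lt_of_lt_of_le (by positivity) hN
  -- the matrix
  have hcard := hC q N hq hN
  have hJA := hJ ((Fin q → Bool) × Bool)
    (Fin 4 × (Fin q → Fin (7000 * q)) × (Fin 3 → Fin q → Fin (2000 * q + 1))) N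
    (fun i => cf (wt i.1 (fun r => gv (i.2.2 r))) (ph i.1) (gx i.2.1)) (1 / 100)
    (by norm_num) (by norm_num) (by
      simp only [Fintype.card_prod, Fintype.card_fin, Fintype.card_pi, Finset.prod_const,
        Finset.card_univ]
      rw [← mul_assoc]
      exact hcard)
  obtain ⟨A, hA⟩ := hJA
  -- bounds on the family
  have hfam : ∀ (k : Fin 4) (m : Fin q → Fin (7000 * q)) (l : Fin 3 → Fin q → Fin (2000 * q + 1))
      (w : (Fin q → Bool) → ℝ) (S : ℝ), (wt k (fun r => gv (l r))) = w →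
      ((∑ e, (w e) ^ 2 ≤ 2 ^ q * S → ‖RR A w (ph k) (gx m)‖ ^ 2 ≤ 101 / 100 * S) ∧
       (2 ^ q * S ≤ ∑ e, (w e) ^ 2 → 99 / 100 * S ≤ ‖RR A w (ph k) (gx m)‖ ^ 2)) := by
    intro k m l w S hw
    have h1 := hA (k, m, l)
    simp only [hw] at h1
    rw [cf_sq] at h1
    obtain ⟨h2, h3⟩ := h1
    have h4 := RR_sq A w (ph k) (gx m)
    have hpos : (0 : ℝ) < (N : ℝ) * 2 ^ q := by positivity
    constructor
    · intro h5
      rw [h4, inv_mul_le_iff₀ hpos]
      calc ∑ a, sgsum (cf w (ph k) (gx m)) (A a) ^ 2 ≤ (1 + 1 / 100) * (N * ∑ e, (w e) ^ 2) := h3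
        _ ≤ (1 + 1 / 100) * (N * (2 ^ q * S)) := by
            refine mul_le_mul_of_nonneg_left ?_ (by norm_num)
            exact mul_le_mul_of_nonneg_left h5 hNpos.le
        _ = (N : ℝ) * 2 ^ q * (101 / 100 * S) := by ring
    · intro h5
      rw [h4, le_inv_mul_iff₀ hpos]
      calc (N : ℝ) * 2 ^ q * (99 / 100 * S) = (1 - 1 / 100) * (N * (2 ^ q * S)) := by ring
        _ ≤ (1 - 1 / 100) * (N * ∑ e, (w e) ^ 2) := by
            refine mul_le_mul_of_nonneg_left ?_ (by norm_num)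
            exact mul_le_mul_of_nonneg_left h5 hNpos.le
        _ ≤ _ := h2
  obtain ⟨hV1, hV2⟩ := hV q hq1 (E N)
  obtain ⟨hsm, hd1, hd2, hd3⟩ := hD q N A
  have wt0 : ∀ v : Fin 3 → E q, wt 0 v = fun _ => 1 := fun v => rfl
  have wt1 : ∀ v : Fin 3 → E q, wt 1 v = fun e => pr e (v 0) := fun v => rfl
  have wt2 : ∀ v : Fin 3 → E q, wt 2 v = fun e => pr e (v 0) * pr e (v 1) := fun v => rfl
  have wt3 : ∀ v : Fin 3 → E q, wt 3 v = fun e => pr e (v 0) * pr e (v 1) * pr e (v 2) :=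
    fun v => rfl
  have ph0 : ph 0 = 0 := rfl
  have ph1 : ph 1 = π / 2 := rfl
  have ph2 : ph 2 = π := rfl
  have ph3 : ph 3 = 3 * π / 2 := rfl
  -- k = 0
  have k0 : ∀ x, ‖RR A (fun _ => 1) 0 x‖ ≤ 101 / 100 := by
    intro x
    have h1 := (hS q N hq1 A (fun _ => 1) 0 (201 / 200) (fun m => by
      have h2 := (hfam 0 m (fun _ _ => 0) (fun _ => 1) 1 (wt0 _)).1 (by simp)
      rw [ph0] at h2
      refine le_of_sq_le_sq (h2.trans ?_) (by norm_num)
      norm_num) x).1
    linarith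
  -- k = 1
  have k1g : ∀ (m : Fin q → Fin (7000 * q)) (v : E q),
      ‖RR A (fun e => pr e v) (π / 2) (gx m)‖ ≤ 1000 / 997 * (201 / 200) * ‖v‖ := by
    intro m v
    have h1 := hV1 1 (by norm_num) (TM 1 A (π / 2) (gx m)) (201 / 200) (by norm_num) (fun l hl => by
      rw [TM_apply]
      simp only [Finset.univ_unique, Fin.default_eq_zero, Finset.prod_singleton]
      have h2 := (hfam 1 m (fun _ => l 0) (fun e => pr e (gv (l 0))) 1 (wt1 _)).1 (by
        rw [(hM q (gv (l 0)) 0 0).1]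
        refine mul_le_mul_of_nonneg_left ?_ (by positivity)
        exact pow_le_one₀ (norm_nonneg _) (hl 0))
      rw [ph1] at h2
      refine le_of_sq_le_sq (h2.trans ?_) (by norm_num)
      norm_num) ![v]
    rw [TM_apply] at h1
    simpa using h1
  have k1 : ∀ x v, ‖RR A (fun e => pr e v) (π / 2) x‖ ≤ 101 / 100 * ‖v‖ := by
    intro x v
    have h1 := (hS q N hq1 A (fun e => pr e v) (π / 2) _ (fun m => k1g m v) x).1
    nlinarith [norm_nonneg v]
  have k1l : ∀ x v, 99 / 100 * ‖v‖ ≤ ‖RR A (fun e => pr e v) (π / 2) x‖ := by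
    intro x v
    obtain ⟨m, hm⟩ := (hS q N hq1 A (fun e => pr e v) (π / 2) _ (fun m => k1g m v) x).2
    have h1 := hV2 (T1 A (π / 2) (gx m)) (9949 / 10000) (101 / 100) (by norm_num) (by norm_num)
      (fun v => k1 (gx m) v) (fun l hl => by
        rw [T1_apply]
        have h2 := (hfam 1 m (fun _ => l) (fun e => pr e (gv l)) (‖gv l‖ ^ 2) (wt1 _)).2 (by
          rw [(hM q (gv l) 0 0).1])
        rw [ph1] at h2
        refine le_of_sq_le_sq ?_ (norm_nonneg _)
        refine le_trans ?_ h2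
        rw [mul_pow]
        refine mul_le_mul_of_nonneg_right ?_ (by positivity)
        norm_num) v
    rw [T1_apply] at h1
    have h3 : ‖RR A (fun e => pr e v) (π / 2) (gx m)‖ ≤ ‖RR A (fun e => pr e v) (π / 2) x‖ +
        ‖RR A (fun e => pr e v) (π / 2) x - RR A (fun e => pr e v) (π / 2) (gx m)‖ := by
      have h4 : RR A (fun e => pr e v) (π / 2) (gx m) = RR A (fun e => pr e v) (π / 2) x -
        (RR A (fun e => pr e v) (π / 2) x - RR A (fun e => pr e v) (π / 2) (gx m)) := by abel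
      conv_lhs => rw [h4]
      exact norm_sub_le _ _
    nlinarith [norm_nonneg v]
  -- k = 2
  have k2 : ∀ x u v, ‖RR A (fun e => pr e u * pr e v) π x‖ ≤ 7 / 4 * (‖u‖ * ‖v‖) := by
    intro x u v
    have hg : ∀ m : Fin q → Fin (7000 * q), ‖RR A (fun e => pr e u * pr e v) π (gx m)‖ ≤
        1000 / 997 * (17408 / 10000) * (‖u‖ * ‖v‖) := by
      intro m
      have h1 := hV1 2 (by norm_num) (TM 2 A π (gx m)) (17408 / 10000) (by norm_num)
        (fun l hl => by
        rw [TM_apply]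
        simp only [Fin.prod_univ_two]
        have h2 := (hfam 2 m ![l 0, l 1, l 0] (fun e => pr e (gv (l 0)) * pr e (gv (l 1))) 3
          (wt2 _)).1 (by
          refine ((hM q (gv (l 0)) (gv (l 1)) 0).2.1).trans ?_
          refine mul_le_mul_of_nonneg_left ?_ (by positivity)
          have h3 : ‖(gv (l 0) : E q)‖ ^ 2 ≤ 1 := pow_le_one₀ (norm_nonneg _) (hl 0)
          have h4 : ‖(gv (l 1) : E q)‖ ^ 2 ≤ 1 := pow_le_one₀ (norm_nonneg _) (hl 1)
          have h5 := mul_le_one₀ h3 (by positivity) h4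
          linarith)
        rw [ph2] at h2
        refine le_of_sq_le_sq (h2.trans ?_) (by norm_num)
        norm_num) ![u, v]
      rw [TM_apply] at h1
      simpa [Fin.prod_univ_two] using h1
    have h1 := (hS q N hq1 A (fun e => pr e u * pr e v) π _ hg x).1
    have h2 : 0 ≤ ‖u‖ * ‖v‖ := by positivity
    nlinarith
  -- k = 3
  have k3 : ∀ x u v w, ‖RR A (fun e => pr e u * pr e v * pr e w) (3 * π / 2) x‖ ≤
      98 / 25 * (‖u‖ * ‖v‖ * ‖w‖) := by
    intro x u v w
    have hg : ∀ m : Fin q → Fin (7000 * q),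
        ‖RR A (fun e => pr e u * pr e v * pr e w) (3 * π / 2) (gx m)‖ ≤
        1000 / 997 * (38925 / 10000) * (‖u‖ * ‖v‖ * ‖w‖) := by
      intro m
      have h1 := hV1 3 (by norm_num) (TM 3 A (3 * π / 2) (gx m)) (38925 / 10000) (by norm_num)
        (fun l hl => by
        rw [TM_apply]
        simp only [Fin.prod_univ_three]
        have h2 := (hfam 3 m l
          (fun e => pr e (gv (l 0)) * pr e (gv (l 1)) * pr e (gv (l 2))) 15 (wt3 _)).1 (by
          refine ((hM q (gv (l 0)) (gv (l 1)) (gv (l 2))).2.2).trans ?_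
          refine mul_le_mul_of_nonneg_left ?_ (by positivity)
          have h3 : ‖(gv (l 0) : E q)‖ ^ 2 ≤ 1 := pow_le_one₀ (norm_nonneg _) (hl 0)
          have h4 : ‖(gv (l 1) : E q)‖ ^ 2 ≤ 1 := pow_le_one₀ (norm_nonneg _) (hl 1)
          have h6 : ‖(gv (l 2) : E q)‖ ^ 2 ≤ 1 := pow_le_one₀ (norm_nonneg _) (hl 2)
          have h5 := mul_le_one₀ (mul_le_one₀ h3 (by positivity) h4) (by positivity) h6
          linarith)
        rw [ph3] at h2
        refine le_of_sq_le_sq (h2.trans ?_) (by norm_num)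
        norm_num) ![u, v, w]
      rw [TM_apply] at h1
      simpa [Fin.prod_univ_three] using h1
    have h1 := (hS q N hq1 A (fun e => pr e u * pr e v * pr e w) (3 * π / 2) _ hg x).1
    have h2 : 0 ≤ ‖u‖ * ‖v‖ * ‖w‖ := by positivity
    nlinarith
  refine ⟨RR A (fun _ => 1) 0, hsm, k0, ?_, ?_, ?_, ?_⟩
  · intro x v; rw [hd1]; exact k1l x v
  · intro x v; rw [hd1]; exact k1 x v
  · intro x u v; rw [hd2]; exact k2 x u v
  · intro x u v w; rw [hd3]; exact k3 x u v w

end Pool.Agent.Helper50.BC
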